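import Pool.Agent.Lib.MP_651af7_nt.Am4.GpA
import Pool.Agent.Lib.MP_651af7_nt.Fc.RA

/-! Integral closures of weighted monomial ideals in a sequence in general position. -/

namespace Pool.Agent.Lib.MP_651af7_nt.Am

open Module Finset LaurentPolynomial Algebra

variable {A Q : Type} [CommRing A] (φ : Q → A) (a : Q → ℕ)

/-- The extended Rees algebra of the weighted monomial filtration. -/
noncomputable def rees (J : Finset Q) : Subalgebra A A[T;T⁻¹] :=
  adjoin A (insert (T 1) ((fun i => C (φ i) * T (-(a i : ℤ))) '' J))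

variable {φ a} {J : Finset Q} {j : Q}

theorem rees_T : T 1 ∈ rees φ a J := subset_adjoin (.inl rfl)

theorem rees_gen (hj : j ∈ J) : C (φ j) * T (-(a j : ℤ)) ∈ rees φ a J :=
  subset_adjoin (.inr ⟨j, hj, rfl⟩)

theorem rees_mul {J' : Finset Q} (h : J ⊆ J') {x y : A[T;T⁻¹]} (hx : x ∈ rees φ a J')
    (hy : IsIntegral (rees φ a J) y) : IsIntegral (rees φ a J') (x * y) := by
  have h1 : rees φ a J ≤ rees φ a J' :=
    adjoin_mono (Set.insert_subset_insert (Set.image_mono h))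
  exact (isIntegral_algebraMap (x := (⟨x, hx⟩ : rees φ a J'))).mul
    (hy.map_of_comp_eq (Subalgebra.inclusion h1).toRingHom (RingHom.id _) rfl)

variable (φ a) in
/-- The integral closure of the monomials in the variables `J` of weight at least `n`. -/
noncomputable def cI (J : Finset Q) (n : ℕ) : Ideal A where
  carrier := {s | IsIntegral (rees φ a J) (C s * T (-(n : ℤ)) : A[T;T⁻¹])}
  add_mem' h1 h2 := by
    rw [Set.mem_ofPred_eq, map_add, add_mul]
    exact h1.add h2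
  zero_mem' := by
    rw [Set.mem_ofPred_eq, map_zero, zero_mul]
    exact isIntegral_zero
  smul_mem' c _ h := by
    rw [Set.mem_ofPred_eq, smul_eq_mul, map_mul, mul_assoc]
    exact rees_mul Subset.rfl ((rees φ a J).algebraMap_mem c) h

theorem cI_anti (J : Finset Q) : Antitone (cI φ a J) := fun n m h s hs => by
  obtain ⟨l, rfl⟩ := Nat.exists_eq_add_of_le h
  have h1 := rees_mul Subset.rfl (pow_mem rees_T l) hs
  rwa [T_pow, mul_left_comm, ← T_add, show l * (1 : ℤ) + -((n + l : ℕ) : ℤ) = -n by omega] at h1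

theorem cI_zero (J : Finset Q) : cI φ a J 0 = ⊤ :=
  (Ideal.eq_top_iff_one _).2 (show IsIntegral _ _ by simpa using isIntegral_one)

theorem cI_pow [DecidableEq Q] (t n : ℕ) {g : A} (hg : g ∈ cI φ a J n) :
    φ j ^ t * g ∈ cI φ a (insert j J) (n + a j * t) := by
  have h1 := rees_mul (subset_insert j J) (pow_mem (rees_gen (mem_insert_self j J)) t) hg
  rwa [mul_pow, T_pow, mul_mul_mul_comm, ← T_add, ← map_pow, ← map_mul,
    show t * -(a j : ℤ) + -(n : ℤ) = -((n + a j * t : ℕ) : ℤ) by push_cast; ring] at h1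

theorem cI_val {K : Type} [Field K] (ι : A →+* K) (O : ValuationSubring K) (hO : ∀ z, ι z ∈ O)
    {π : K} (π0 : π ≠ 0) (hπ : π ∈ O) {B : ℕ} (hB : B ≠ 0)
    (h : ∀ i ∈ J, ι (φ i) ^ B / π ^ a i ∈ O) {s : A} {n : ℕ} (hs : s ∈ cI φ a J n) :
    ι s ^ B / π ^ n ∈ O := by
  let L := AlgebraicClosure K
  have hi := (algebraMap K L).injective
  obtain ⟨w, hw⟩ := IsAlgClosed.exists_pow_nat_eq (algebraMap K L π) (Nat.pos_of_ne_zero hB)
  have w0 : w ≠ 0 := fun e => π0 (hi (by rw [← hw, e, zero_pow hB, map_zero]))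
  let ev := LaurentPolynomial.eval₂ ((algebraMap K L).comp ι) (Units.mk0 w w0)
  have h1 : ∀ (z : A) (m : ℕ), ev (C z * T (-(m : ℤ))) ^ B = algebraMap K L (ι z ^ B / π ^ m) :=
    fun z m => by
      simp only [ev, eval₂_C_mul_T_neg_n, map_div₀, map_pow, ← hw, mul_pow, ← pow_mul]
      simp [div_eq_mul_inv, mul_comm]
  have h2 : ∀ z ∈ O, IsIntegral O (algebraMap K L z) := fun z hz =>
    isIntegral_algebraMap (x := (⟨z, hz⟩ : O))
  have h3 : ∀ x ∈ rees φ a J, ev x ∈ integralClosure O L := fun x hx => by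
    refine adjoin_induction ?_ (fun r => ?_) (fun _ _ _ _ k1 k2 => map_add ev _ _ ▸ add_mem k1 k2)
      (fun _ _ _ _ k1 k2 => map_mul ev _ _ ▸ mul_mem k1 k2) hx
    · rintro _ (rfl | ⟨i, k, rfl⟩)
      · refine IsIntegral.of_pow (Nat.pos_of_ne_zero hB) ?_
        simpa [ev, hw] using h2 π hπ
      · exact IsIntegral.of_pow (Nat.pos_of_ne_zero hB) (h1 _ _ ▸ h2 _ (h i k))
    · simpa [ev, ← C_eq_algebraMap, mem_integralClosure_iff] using h2 _ (hO r)
  have h4 := (isIntegral_trans (R := O) _ (IsIntegral.map_of_comp_eq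
    ((ev.comp (rees φ a J).val.toRingHom).codRestrict (integralClosure O L) fun x => h3 _ x.2)
    ev rfl hs)).pow B
  rw [h1, isIntegral_algebraMap_iff hi] at h4
  obtain ⟨y, hy⟩ := IsIntegrallyClosed.isIntegral_iff.1 h4
  exact hy ▸ y.2

variable {F : Type} [Field F] [Algebra F A] [IsDomain A] [FiniteType F A] [DecidableEq Q]
  (hP : ∀ T : Finset Q, (T.card : ℕ∞) ≤ (Ideal.span (φ '' T)).height)
include hP

omit [FiniteType F A] in
theorem rees_cod (hJ : ∀ i ∈ J, 0 < a i) (hj : j ∉ J) (P : Ideal (rees φ a J)) [P.IsPrime]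
    (h1 : ⟨T 1, rees_T⟩ ∈ P) (h2 : algebraMap A _ (φ j) ∈ P) :
    trdeg F (rees φ a J ⧸ P) + 2 ≤ trdeg F (rees φ a J) := by
  have : Algebra.Transcendental A (rees φ a J) := ⟨⟨⟨T 1, rees_T⟩,
    (transcendental_algebraMap_iff Subtype.val_injective).1 (transcendental_iff_injective.2 (by
      have e : Polynomial.aeval (T 1 : A[T;T⁻¹]) = Polynomial.toLaurentAlg :=
        Polynomial.algHom_ext (by simp)
      exact e ▸ Polynomial.toLaurent_injective))⟩⟩
  refine gp_cod (A := A) P (fun i : J => ⟨_, rees_gen i.2⟩)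
    (adjoin_adjoin_coe_preimage.ge.trans (adjoin_mono ?_)) h1 ?_
  · rintro ⟨x, hx⟩ (rfl | ⟨i, k, rfl⟩)
    exacts [.inl rfl, .inr ⟨⟨i, k⟩, rfl⟩]
  rw [Fintype.card_coe, ← card_insert_of_notMem hj]
  refine (hP _).trans (Ideal.height_mono (Ideal.span_le.2 ?_))
  rintro _ ⟨i, hi, rfl⟩
  rcases mem_insert.1 hi with rfl | hi
  · exact h2
  · have e : algebraMap A (rees φ a J) (φ i) = ⟨_, rees_gen hi⟩ * ⟨T 1, rees_T⟩ ^ a i :=
      Subtype.ext (by
        change C (φ i) = C (φ i) * T _ * T 1 ^ a i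
        rw [T_pow, mul_assoc, ← T_add, mul_one, neg_add_cancel, T_zero, mul_one])
    change algebraMap A (rees φ a J) (φ i) ∈ P
    rw [e]
    exact P.mul_mem_left _ (P.pow_mem_of_mem h1 _ (hJ i hi))

include F in
theorem cI_inf (hJ : ∀ i ∈ J, 0 < a i) (hj : j ∉ J) (t n : ℕ) {s : A} (h1 : s ∈ cI φ a J n)
    (h2 : s ∈ Ideal.span {φ j ^ t}) : s ∈ cI φ a (insert j J) (n + a j * t) := by
  obtain ⟨g, rfl⟩ := Ideal.mem_span_singleton.1 h2
  have : FiniteType A (rees φ a J) := (Subalgebra.fg_iff_finiteType _).1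
    (Subalgebra.fg_def.2 ⟨_, (J.finite_toSet.image _).insert _, rfl⟩)
  have : FiniteType F (rees φ a J) := .trans (S := A) inferInstance inferInstance
  refine cI_pow t n (gp_int (F := F) (u := ⟨T 1, rees_T⟩ ^ n) (c := algebraMap A _ (φ j) ^ t)
    (fun P _ k1 k2 => rees_cod hP hJ hj P (Ideal.IsPrime.mem_of_pow_mem ‹_› _ k1)
      (Ideal.IsPrime.mem_of_pow_mem ‹_› _ k2)) ?_ ?_)
  · change IsIntegral _ (T 1 ^ n * _)
    rw [T_pow, mul_left_comm, ← T_add, mul_one, add_neg_cancel, T_zero, mul_one]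
    exact isIntegral_algebraMap (x := algebraMap A (rees φ a J) g)
  · change IsIntegral _ (C (φ j) ^ t * _)
    rwa [← mul_assoc, ← map_pow, ← map_mul]

theorem cI_dim {E : Type} [AddCommGroup E] [Module F E] [FiniteDimensional F E] (ψ : E →ₗ[F] A)
    (W : Q → ℕ → Submodule F E) (hW : ∀ i t, ∀ s ∈ W i t, ψ s ∈ Ideal.span {φ i ^ (t + 1)}) (N : ℕ)
    (J : Finset Q) (hJ : ∀ j ∈ J, 0 < a j) : ∃ M, ∑ i ∈ J, a i * ∑ t ∈ range N, finrank F (W i t) ≤
      ∑ n ∈ range M, finrank F (((cI φ a J (n + 1)).restrictScalars F).comap ψ) := by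
  induction J using Finset.induction_on with
  | empty => exact ⟨0, by simp⟩
  | insert j J hj ih =>
    have hJ' : ∀ l ∈ J, 0 < a l := fun l hl => hJ l (mem_insert_of_mem hl)
    obtain ⟨M, hM⟩ := ih hJ'
    obtain ⟨Y, -, -, k1, -, k2⟩ := Fc.conv (fun n => ((cI φ a J n).restrictScalars F).comap ψ)
      (fun t => W j (t / a j)) (fun n => ((cI φ a (insert j J) n).restrictScalars F).comap ψ)
      (fun _ _ h _ hs => cI_anti J h hs) (by simp [cI_zero]) (fun _ _ h _ hs => cI_anti _ h hs)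
      (fun n _ hs => by simpa using cI_pow (j := j) 0 n hs) (fun n t s hs => cI_anti _ (by
        have := Nat.lt_mul_div_succ t (hJ j (mem_insert_self _ _))
        omega) (cI_inf (F := F) hP hJ' hj _ n hs.1 (hW _ _ _ hs.2))) M (a j * N)
    rw [Fc.sum_div fun t => finrank F (W j t)] at k2
    refine ⟨_, le_trans ?_ (k2.trans (sum_le_sum fun n _ => Submodule.finrank_mono (k1 _)))⟩
    rw [sum_insert hj]
    omega

/-- A basis adapted to the weight `a`. -/
theorem cI_basis [Fintype Q] {r : ℕ} (ψ : (Fin r → F) →ₗ[F] A) (W : Q → ℕ → Submodule F (Fin r → F))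
    (hW : ∀ i t, ∀ s ∈ W i t, ψ s ∈ Ideal.span {φ i ^ (t + 1)}) (N : ℕ) (a : Q → ℕ) :
    ∃ (G : Matrix (Fin r) (Fin r) F) (w : Fin r → ℕ), G.det ≠ 0 ∧
      (∀ l, ψ (G l) ∈ cI φ a {i | 0 < a i} (w l)) ∧
      ∑ i, a i * ∑ t ∈ range N, finrank F (W i t) ≤ ∑ l, w l := by
  obtain ⟨M, hM⟩ := cI_dim hP ψ W hW N {i | 0 < a i} fun j hj => (mem_filter.1 hj).2
  obtain ⟨b, w, h1, h2, h3, h4⟩ := Fc.fa_aux M
    (fun n => ((cI φ a {i | 0 < a i} n).restrictScalars F).comap ψ) fun _ _ h _ hs => cI_anti _ h hs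
  have hc : b.card = r := by
    rw [← finrank_span_finset_eq_card h1, h2, cI_zero, Submodule.restrictScalars_top,
      Submodule.comap_top, finrank_top, finrank_fin_fun]
  let e := (Finset.equivFinOfCardEq hc).symm
  refine ⟨Matrix.of fun a => (e a).1, fun a => w (e a), ?_, fun a => h3 _ (e a).2, ?_⟩
  · exact ((Matrix.isUnit_iff_isUnit_det _).1 (Matrix.linearIndependent_rows_iff_isUnit.1
      (h1.comp e e.injective))).ne_zero
  · rw [e.sum_comp fun x => w x, Finset.sum_coe_sort b w]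
    refine le_trans (le_of_eq ?_) (hM.trans h4)
    exact (sum_filter_of_ne fun i _ h => Nat.pos_of_ne_zero fun e => h (by rw [e, zero_mul])).symm

end Pool.Agent.Lib.MP_651af7_nt.Am
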