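import Mathlib

/-! Height, transcendence degree and a test for integrality in codimension one. -/

namespace Pool.Agent.Lib.MP_651af7_nt.Am

open Algebra

variable {F A : Type} [Field F] [CommRing A] [Algebra F A]

theorem gp_step {p q : Ideal A} [q.IsPrime] [p.IsPrime] (h : q < p) :
    trdeg F (A ⧸ p) + 1 ≤ trdeg F (A ⧸ q) := by
  obtain ⟨s, hs⟩ := exists_isTranscendenceBasis F (A ⧸ p)
  obtain ⟨a, a1, a2⟩ := SetLike.exists_of_lt h
  let π := Ideal.Quotient.factorₐ F h.le
  choose z hz using fun i : s => Ideal.Quotient.mk_surjective (i : A ⧸ p)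
  have h1 : AlgebraicIndependent F (π ∘ fun i => Ideal.Quotient.mk q (z i)) := by
    have e : (π ∘ fun i => Ideal.Quotient.mk q (z i)) = Subtype.val := funext hz
    exact e ▸ hs.1
  have h2 := (AlgebraicIndependent.option_iff (a := Ideal.Quotient.mk q a)).2
    ⟨h1.of_comp π, fun h3 => by
      obtain ⟨⟨r, r1⟩, r2, c, r3⟩ := h3.exists_nonzero_dvd
        (mem_nonZeroDivisors_of_ne_zero (mt Ideal.Quotient.eq_zero_iff_mem.1 a2))
      obtain ⟨f, rfl⟩ := (adjoin_range_eq_range_aeval F _).le r1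
      have e : π (Ideal.Quotient.mk q a) = 0 := Ideal.Quotient.eq_zero_iff_mem.2 a1
      have h4 := congrArg π r3
      rw [map_mul, e, zero_mul] at h4
      obtain rfl : f = 0 := h1.eq_zero_of_aeval_eq_zero f
        ((MvPolynomial.comp_aeval_apply _ π f).symm.trans h4)
      exact r2 (Subtype.ext (map_zero _))⟩
  rw [← hs.cardinalMk_eq_trdeg, ← Cardinal.mk_option]
  exact h2.cardinalMk_le_trdeg

theorem gp_ht (t : ℕ) : ∀ (p : Ideal A) [p.IsPrime], (t : ℕ∞) ≤ p.height →
    trdeg F (A ⧸ p) + t ≤ trdeg F A := by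
  induction t with
  | zero =>
    intro p _ _
    simpa using trdeg_le_of_surjective (Ideal.Quotient.mkₐ F p) Ideal.Quotient.mk_surjective
  | succ t ih =>
    intro p _ h
    have h1 : ¬ p.height ≤ t := fun e => by
      have := h.trans e
      norm_cast at this
      omega
    rw [Ideal.height_le_iff] at h1
    push Not at h1
    obtain ⟨q, _, h2, h3⟩ := h1
    rw [Nat.cast_add_one, add_comm (t : Cardinal), ← add_assoc]
    exact (add_le_add_left (gp_step h2) _).trans (ih q h3)

open MvPolynomial in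
theorem gp_var {m : ℕ} (f : MvPolynomial (Fin m) F →ₐ[F] A) [Nontrivial A]
    {π : MvPolynomial (Fin m) F} (hπ : ¬ IsUnit π) (h : ∀ b, f b = 0 → π ∣ b) :
    (m : Cardinal) ≤ trdeg F A + 1 := by
  classical
  have h1 : ∀ s : Set (Fin m), (∀ g : MvPolynomial s F, π ∣ rename Subtype.val g →
      rename (Subtype.val : s → Fin m) g = 0) → Cardinal.mk s ≤ trdeg F A := fun s hs => by
    have h2 : AlgebraicIndependent F fun i : s => f (X i) := by
      refine algebraicIndependent_iff.2 fun g hg => ?_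
      refine rename_injective _ Subtype.val_injective ((hs g (h _ ?_)).trans (map_zero _).symm)
      rw [aeval_unique f, aeval_rename]
      exact hg
    exact h2.cardinalMk_le_trdeg
  rcases π.vars.eq_empty_or_nonempty with e | ⟨i, hi⟩
  · have h2 := h1 Set.univ fun g hg => by
      rw [vars_eq_empty_iff_eq_C] at e
      by_cases e' : π.coeff 0 = 0
      · rwa [e, e', map_zero, zero_dvd_iff] at hg
      · exact absurd (e ▸ (Ne.isUnit e').map C) hπ
    rw [Cardinal.mk_univ, Cardinal.mk_fin] at h2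
    exact h2.trans le_self_add
  · have h2 := h1 {i}ᶜ fun g ⟨c, hc⟩ => by
      by_contra h0
      have h3 := degreeOf_mul_eq (n := i) (left_ne_zero_of_mul (hc ▸ h0))
        (right_ne_zero_of_mul (hc ▸ h0))
      rw [mem_vars_iff_degreeOf_ne_zero] at hi
      obtain ⟨j, -, hj⟩ := mem_vars_rename _ g
        (mem_vars_iff_degreeOf_ne_zero.2 (by rw [hc]; omega) : i ∈ _)
      exact j.2 hj
    rw [← Cardinal.mk_fin, ← Cardinal.mk_sum_compl {i}, Cardinal.mk_singleton, add_comm]
    exact add_le_add_left h2 _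

theorem gp_ufd {B Λ : Type} [CommRing B] [IsDomain B] [UniqueFactorizationMonoid B] [CommRing Λ]
    [IsDomain Λ] [Algebra B Λ] [FaithfulSMul B Λ] {y : Λ}
    (h : ∀ π : B, Prime π ∨ π = 0 → ∃ b, ¬ π ∣ b ∧ IsIntegral B (b • y)) : IsIntegral B y := by
  let L := FractionRing Λ
  let E := FractionRing B
  let _ : Algebra E L := FractionRing.liftAlgebra B L
  have hi := IsFractionRing.injective B E
  obtain ⟨z, hz⟩ : ∃ z, z = algebraMap Λ L y := ⟨_, rfl⟩
  have h1 : ∀ b : B, IsIntegral B (b • y) → IsIntegral B (algebraMap B E b • z) := fun b hb => by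
    rw [algebraMap_smul, hz, ← algebraMap.coe_smul]
    exact hb.algebraMap
  have h2 : IsIntegral E z := by
    obtain ⟨b, b1, b2⟩ := h 0 (.inr rfl)
    have := ((h1 b b2).tower_top (A := E)).smul (algebraMap B E b)⁻¹
    rwa [inv_smul_smul₀ ((map_ne_zero_iff _ hi).2 (mt zero_dvd_iff.2 b1))] at this
  have h3 : minpoly E z ∈ Polynomial.lifts (algebraMap B E) := by
    refine (Polynomial.lifts_iff_coeff_lifts _).2 fun k => ?_
    obtain ⟨c, hc⟩ : ∃ c, c = (minpoly E z).coeff k := ⟨_, rfl⟩
    refine ⟨_, (IsFractionRing.isUnit_den_iff c).1 ?_ |>.choose_spec.trans hc⟩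
    by_contra h4
    obtain ⟨π, p1, p2⟩ := WfDvdMonoid.exists_irreducible_factor h4 (nonZeroDivisors.coe_ne_zero _)
    obtain ⟨b, b1, b2⟩ := h π (.inl p1.prime)
    have h5 := congrArg (Polynomial.coeff · k) ((IsIntegrallyClosed.minpoly_smul
      ((map_ne_zero_iff _ hi).2 fun e : b = 0 => b1 (e ▸ dvd_zero π)) h2).symm.trans
      (minpoly.isIntegrallyClosed_eq_field_fractions' E (h1 b b2)))
    simp only [Polynomial.coeff_scaleRoots, Polynomial.coeff_map, ← hc] at h5
    have h6 := congrArg (· * algebraMap B E (IsFractionRing.den B c)) h5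
    simp only [mul_right_comm c] at h6
    rw [IsFractionRing.num_mul_den_eq_num_iff_eq.2 rfl, ← map_pow, ← map_mul, ← map_mul] at h6
    rcases p1.prime.dvd_or_dvd (hi h6 ▸ p2.mul_left _) with h7 | h7
    · exact p1.not_isUnit (IsFractionRing.num_den_reduced B c h7 p2)
    · exact b1 (p1.prime.dvd_of_dvd_pow h7)
  obtain ⟨p, p1, -, p2⟩ := Polynomial.lifts_and_natDegree_eq_and_monic h3 (minpoly.monic h2)
  refine (isIntegral_algebraMap_iff (IsFractionRing.injective Λ L)).1 ⟨p, p2, ?_⟩
  rw [← hz, ← Polynomial.aeval_def, ← Polynomial.aeval_map_algebraMap E, p1, minpoly.aeval]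

theorem gp_int {Λ : Type} [CommRing Λ] [IsDomain Λ] [IsDomain A] [FiniteType F A] [Algebra A Λ]
    [FaithfulSMul A Λ] {u c : A} {y : Λ} (H : ∀ Q : Ideal A, Q.IsPrime → u ∈ Q → c ∈ Q →
      trdeg F (A ⧸ Q) + 2 ≤ trdeg F A) (hu : IsIntegral A (u • y)) (hc : IsIntegral A (c • y)) :
    IsIntegral A y := by
  obtain ⟨m, g, g1, g2⟩ := exists_integral_inj_algHom_of_fg F A
  let _ : Algebra (MvPolynomial (Fin m) F) A := g.toRingHom.toAlgebra
  let _ : Algebra (MvPolynomial (Fin m) F) Λ := ((algebraMap A Λ).comp g.toRingHom).toAlgebra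
  have : IsScalarTower (MvPolynomial (Fin m) F) A Λ := .of_algebraMap_eq fun _ => rfl
  have : IsScalarTower F (MvPolynomial (Fin m) F) A :=
    .of_algebraMap_eq fun a => (g.commutes a).symm
  have : Algebra.IsIntegral (MvPolynomial (Fin m) F) A := ⟨g2⟩
  have : FaithfulSMul (MvPolynomial (Fin m) F) A := (faithfulSMul_iff_algebraMap_injective ..).2 g1
  have : FaithfulSMul (MvPolynomial (Fin m) F) Λ := (faithfulSMul_iff_algebraMap_injective ..).2
    ((FaithfulSMul.algebraMap_injective A Λ).comp g1)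
  have h1 : trdeg F A = m := by
    rw [← trdeg_add_eq F (MvPolynomial (Fin m) F), MvPolynomial.trdeg_of_isDomain, trdeg_eq_zero]
    simp
  let I : Ideal A :=
    { carrier := {s | IsIntegral A (s • y)}
      add_mem' := fun h1 h2 => by
        rw [Set.mem_ofPred_eq, add_smul]
        exact h1.add h2
      zero_mem' := by
        rw [Set.mem_ofPred_eq, zero_smul]
        exact isIntegral_zero
      smul_mem' := fun a _ h => by
        rw [Set.mem_ofPred_eq, smul_assoc]
        exact h.smul a }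
  refine (gp_ufd (B := MvPolynomial (Fin m) F) fun π hπ => ?_).tower_top
  by_contra h2
  push Not at h2
  have h3 : (Ideal.span {π}).IsPrime := by
    rcases hπ with h | rfl
    · exact (Ideal.span_singleton_prime h.ne_zero).2 h
    · simpa using Ideal.isPrime_bot
  obtain ⟨Q, q1, q2, q3⟩ := Ideal.exists_ideal_over_prime_of_isIntegral (Ideal.span {π}) I
    fun b hb => Ideal.mem_span_singleton.2 (by_contra fun e => h2 b e (isIntegral_trans _ (by
      rwa [← algebraMap_smul A])))
  have h4 := gp_var ((Ideal.Quotient.mkₐ F Q).comp g) (π := π)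
    (fun e => h3.ne_top (Ideal.span_singleton_eq_top.2 e)) fun b hb =>
      Ideal.mem_span_singleton.1 (q3.le (Ideal.Quotient.eq_zero_iff_mem (a := g b) |>.1 hb))
  have h5 := (add_le_add_left h4 1).trans ((add_assoc ..).le.trans
    (one_add_one_eq_two (R := Cardinal) ▸ H Q q2 (q1 hu) (q1 hc)))
  rw [h1] at h5
  norm_cast at h5
  omega

theorem gp_cod {S ι : Type} [CommRing S] [IsDomain S] [Algebra A S] [Algebra F S] [Fintype ι]
    [IsScalarTower F A S] [FaithfulSMul A S] [Algebra.Transcendental A S] (P : Ideal S) [P.IsPrime]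
    {u : S} (τ : ι → S) (hS : ⊤ ≤ adjoin A (insert u (Set.range τ))) (hu : u ∈ P)
    (h : ((Fintype.card ι + 1 : ℕ) : ℕ∞) ≤ (P.comap (algebraMap A S)).height) :
    trdeg F (S ⧸ P) + 2 ≤ trdeg F S := by
  have := (FaithfulSMul.algebraMap_injective A S).isDomain _
  let f : A →ₐ[F] S ⧸ P := (Ideal.Quotient.mkₐ F P).comp (IsScalarTower.toAlgHom F A _)
  have e : RingHom.ker f = P.comap (algebraMap A S) :=
    Ideal.ext fun _ => Ideal.Quotient.eq_zero_iff_mem
  have : (RingHom.ker f).IsPrime := RingHom.ker_isPrime _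
  have k1 := gp_ht (F := F) _ (RingHom.ker f) (e ▸ h)
  have k2 : ∀ x ∈ adjoin A (insert u (Set.range τ)), Ideal.Quotient.mk P x ∈
      adjoin f.range (Set.range fun i => Ideal.Quotient.mk P (τ i)) := fun x hx => by
    refine adjoin_induction ?_ (fun r => Subalgebra.algebraMap_mem _ (⟨f r, r, rfl⟩ : f.range))
      (fun _ _ _ _ k k' => by rw [map_add]; exact add_mem k k')
      (fun _ _ _ _ k k' => by rw [map_mul]; exact mul_mem k k') hx
    rintro _ (rfl | ⟨i, rfl⟩)
    · rw [Ideal.Quotient.eq_zero_iff_mem.2 hu]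
      exact zero_mem _
    · exact subset_adjoin ⟨i, rfl⟩
  have : Algebra.IsAlgebraic (adjoin f.range (Set.range fun i => Ideal.Quotient.mk P (τ i)))
      (S ⧸ P) := ⟨fun x => by
    obtain ⟨x, rfl⟩ := Ideal.Quotient.mk_surjective x
    exact isAlgebraic_algebraMap (⟨_, k2 x (hS trivial)⟩ : adjoin f.range _)⟩
  have k3 := (IsAlgebraic.trdeg_le_cardinalMk f.range
    (Set.range fun i => Ideal.Quotient.mk P (τ i))).trans Cardinal.mk_range_le
  rw [(Ideal.quotientKerEquivRange f).trdeg_eq] at k1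
  rw [← trdeg_add_eq F f.range, ← trdeg_add_eq F A (A := S), ← one_add_one_eq_two, ← add_assoc]
  refine add_le_add (le_trans ?_ k1) (Cardinal.one_le_iff_pos.2 (trdeg_pos _ _))
  rw [Nat.cast_add_one, ← add_assoc, ← Cardinal.mk_fintype]
  exact add_le_add_left (add_le_add_right k3 _) _

/-- A sequence that is regular in every order is in general position. -/
theorem gp_of_reg {Q : Type} {φ : Q → A} (h : ∀ (T : Set Q) j, j ∉ T →
    ∀ g, φ j * g ∈ Ideal.span (φ '' T) → g ∈ Ideal.span (φ '' T)) (T : Finset Q) :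
    (T.card : ℕ∞) ≤ (Ideal.span (φ '' T)).height := by
  induction T using Finset.cons_induction with
  | empty => simp
  | cons j T hj ih =>
    rw [Ideal.height_eq_inf_minimalPrimes]
    refine le_iInf₂ fun p hp => ?_
    have := hp.1.1
    have h1 : Ideal.span (φ '' T) ≤ p :=
      (Ideal.span_mono (Set.image_mono (Finset.subset_cons hj))).trans hp.1.2
    obtain ⟨p', h2, h3⟩ := Ideal.exists_minimalPrimes_le h1
    have := h2.1.1
    have h4 : p' < p := lt_of_le_of_ne h3 fun e => by
      obtain ⟨g, g1, g2⟩ := Ideal.exists_mul_mem_of_mem_minimalPrimes h2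
        (e ▸ hp.1.2 (Ideal.subset_span ⟨j, Finset.mem_cons_self j T, rfl⟩) : φ j ∈ p')
      exact g1 (h T j hj g g2)
    rw [Finset.card_cons, Nat.cast_add_one]
    exact (add_le_add_left (ih.trans (Ideal.height_mono h2.1.2)) 1).trans
      (Ideal.height_add_one_le_of_lt_of_isPrime h4)

end Pool.Agent.Lib.MP_651af7_nt.Am
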